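import Pool.Agent.PVD.StmtsM1

/-! Squad PVD, rows N_RS1, N_RS2: Riemann sums of the class functions. -/

set_option autoImplicit false

open MeasureTheory Filter Topology

namespace Pool.Agent.PVD.M.H18

open Pool.Agent.PVD.L Pool.Agent.PVD.M

theorem nd_pos (n j : ℕ) : 0 < nd n j := by
  unfold nd
  positivity

theorem cont_quot (blf : BlfStmt) {e : ℝ} (he0 : 0 < e) (he1 : e < 1 / 2) {m : Fin 4 → ℝ}
    (hm : PA AL m) : ContinuousOn (fun t : ℝ => ∑ i, m i * bl e i t) (Set.Icc 0 1) ∧
      ∀ t ∈ Set.Icc (0 : ℝ) 1, ∑ i, m i * bl e i t ≠ 0 := by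
  obtain ⟨h1, -, h3, -⟩ := blf e he0 he1 m
  exact ⟨(continuous_finset_sum _ fun i _ => continuous_const.mul (h1 i)).continuousOn,
    fun t ht => (h3 hm t ht.1 ht.2).ne'⟩

/-- RS1. -/
theorem rs1 (rsg : RsgStmt) (blf : BlfStmt) : Rs1Stmt := by
  intro e he0 he1 A m hA hPA i hi
  obtain ⟨h1, h2, h3, h4, h5, -⟩ := blf e he0 he1 m
  rcases hA with rfl | rfl
  · refine rsg (fun t => cl e i t / fm e m t) ?_
    refine (cl_cont e i).continuousOn.div (fm_cont e m).continuousOn fun t ht => ?_
    exact (h5 hPA t ht.1 ht.2).ne'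
  · have hi0 : i ≠ 0 := by
      rintro rfl
      revert hi
      decide
    obtain ⟨c1, c2⟩ := cont_quot blf he0 he1 hPA
    have hr := rsg (fun t => bl e i t / ∑ l, m l * bl e l t) ((h1 i).continuousOn.div c1 c2)
    have heq : ∀ t : ℝ, 0 < t → cl e i t / fm e m t = bl e i t / ∑ l, m l * bl e l t := by
      intro t ht
      rw [h2 i hi0 t ht, h4 hPA t ht, mul_div_mul_left _ _ ht.ne']
    have hint : Hm e m i = ∫ t in (0:ℝ)..1, bl e i t / ∑ l, m l * bl e l t := by
      unfold Hm
      apply intervalIntegral.integral_congr_ae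
      refine Eventually.of_forall fun t ht => ?_
      rw [Set.uIoc_of_le zero_le_one] at ht
      exact heq t ht.1
    rw [hint]
    refine hr.congr fun n => ?_
    congr 1
    apply Finset.sum_congr rfl
    intro j _
    exact (heq _ (nd_pos n j)).symm

/-- RS2. -/
theorem rs2 (rsg : RsgStmt) (rlg : RlgStmt) (blf : BlfStmt) : Rs2Stmt := by
  intro e he0 he1 A m hA hPA
  obtain ⟨h1, h2, h3, h4, h5, -⟩ := blf e he0 he1 m
  rcases hA with rfl | rfl
  · have hr := rsg (fun t => Real.log (fm e m t))
      ((fm_cont e m).continuousOn.log fun t ht => (h5 hPA t ht.1 ht.2).ne')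
    unfold Ph
    rw [neg_neg]
    exact hr
  · obtain ⟨c1, c2⟩ := cont_quot blf he0 he1 hPA
    have c3 := c1.log c2
    have hr := rsg (fun t => Real.log (∑ l, m l * bl e l t)) c3
    have heq : ∀ t : ℝ, 0 < t → t ≤ 1 → Real.log (fm e m t) =
        Real.log t + Real.log (∑ l, m l * bl e l t) := by
      intro t ht ht1
      rw [h4 hPA t ht, Real.log_mul ht.ne' (h3 hPA t ht.le ht1).ne']
    have hint : - Ph e m = -1 + ∫ t in (0:ℝ)..1, Real.log (∑ l, m l * bl e l t) := by
      unfold Ph
      rw [neg_neg]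
      have i1 : (∫ t in (0:ℝ)..1, Real.log (fm e m t)) =
          ∫ t in (0:ℝ)..1, (Real.log t + Real.log (∑ l, m l * bl e l t)) := by
        apply intervalIntegral.integral_congr_ae
        refine Eventually.of_forall fun t ht => ?_
        rw [Set.uIoc_of_le zero_le_one] at ht
        exact heq t ht.1 ht.2
      rw [i1, intervalIntegral.integral_add intervalIntegral.intervalIntegrable_log'
        (ContinuousOn.intervalIntegrable (by rwa [Set.uIcc_of_le zero_le_one])), integral_log]
      norm_num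
    rw [hint]
    refine (rlg.add hr).congr fun n => ?_
    rw [← mul_add, ← Finset.sum_add_distrib]
    congr 1
    apply Finset.sum_congr rfl
    intro j hj
    refine (heq _ (nd_pos n j) ?_).symm
    unfold nd
    rw [div_le_one (by positivity)]
    have : j < n := Finset.mem_range.1 hj
    have h6 : (j : ℝ) ≤ n := by exact_mod_cast this.le
    linarith

end Pool.Agent.PVD.M.H18
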